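import Pool.Agent.MDG.Stmts

set_option autoImplicit false

/-!
# Row THR of squad MDG (MP_3faef8_co): Lemma A with a real shift
-/

namespace Pool.Agent.MDG.H24

open Finset Matrix Pool.Agent.HEC

/-- A sum over all vertices is the value at the root plus the sum over the others. -/
lemma sum_idx {V R : Type} [Fintype V] [AddCommMonoid R] (o : V) (g : V → R) :
    ∑ v, g v = g o + ∑ i : Idx o, g i.val := by
  classical
  rw [← Finset.add_sum_erase univ g (Finset.mem_univ o)]
  congr 1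
  symm
  refine Finset.sum_bij (fun (i : Idx o) _ => i.val) ?_ ?_ ?_ ?_
  · intro i _
    exact Finset.mem_erase.2 ⟨i.2, Finset.mem_univ _⟩
  · intro i _ j _ h
    exact Subtype.ext h
  · intro v hv
    exact ⟨⟨v, (Finset.mem_erase.1 hv).1⟩, Finset.mem_univ _, rfl⟩
  · intro i _
    rfl

/-- The Laplacian times a vector. -/
lemma lap_mulVec {V E : Type} [Fintype V] [Fintype E] (s t : E → V) (o : V) (c : E → ℝ)
    (φ : Idx o → ℝ) (i : Idx o) :
    (lap s t o c *ᵥ φ) i = ∑ e, c e * (chi s t o e ⬝ᵥ φ) * chi s t o e i := by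
  unfold lap
  rw [Matrix.sum_mulVec, Finset.sum_apply]
  refine Finset.sum_congr rfl fun e _ => ?_
  rw [Matrix.smul_mulVec, Pi.smul_apply, smul_eq_mul, Matrix.vecMulVec_mulVec]
  simp only [Pi.smul_apply, MulOpposite.smul_eq_mul_unop, MulOpposite.unop_op]
  ring

/-- The expansion of a quadratic form. -/
lemma quad_expand {I : Type} [Fintype I] (B : Matrix I I ℝ) (hB : Bᵀ = B) (b z : I → ℝ) (M : ℝ) :
    (fun i => b i + M * z i) ⬝ᵥ (B *ᵥ fun i => b i + M * z i) =
      b ⬝ᵥ (B *ᵥ b) + 2 * M * (z ⬝ᵥ (B *ᵥ b)) + M ^ 2 * (z ⬝ᵥ (B *ᵥ z)) := by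
  have h1 : (fun i => b i + M * z i) = b + M • z := by
    funext i
    rfl
  have h2 : b ⬝ᵥ (B *ᵥ z) = z ⬝ᵥ (B *ᵥ b) := by
    rw [Matrix.dotProduct_mulVec, ← Matrix.mulVec_transpose, hB, dotProduct_comm]
  rw [h1, Matrix.mulVec_add, Matrix.mulVec_smul, add_dotProduct, dotProduct_add, dotProduct_add,
    smul_dotProduct, smul_dotProduct, dotProduct_smul, dotProduct_smul, h2]
  simp only [smul_eq_mul]
  ring

/-- The proof of row THR. -/
theorem thr (hmin : Pool.Agent.HEC.MinStmt) (hcsr : CsrStmt) : ThrStmt := by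
  classical
  intro V E _ _ s t k lam eta M r z0 hlam hk hcut heta hM hr
  by_cases hV : IsEmpty V
  · refine ⟨fun _ => 0, fun _ => 0, by simp, fun e => (hV.false (s e)).elim,
      fun v => (hV.false v).elim⟩
  rw [not_isEmpty_iff] at hV
  obtain ⟨o⟩ := hV
  obtain ⟨c, hc, hpd, hlev⟩ := hmin V E s t k lam eta o hlam hk hcut heta
  obtain ⟨b', ⟨z', hz'⟩, hbmin⟩ := hcsr (Idx o) (lap s t o c) M (fun i => r i.val) hpd
  set A := lap s t o c with hA
  have hAsymm : (A⁻¹)ᵀ = A⁻¹ := by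
    have h1 : A.IsHermitian := hpd.isHermitian
    have h2 := h1.inv
    unfold Matrix.IsHermitian at h2
    rwa [Matrix.conjTranspose_eq_transpose_of_trivial] at h2
  have hdet : IsUnit A.det := hpd.det_pos.ne'.isUnit
  set φ : Idx o → ℝ := A⁻¹ *ᵥ b' with hφ
  have hAφ : A *ᵥ φ = b' := by
    rw [hφ, Matrix.mulVec_mulVec, Matrix.mul_nonsing_inv _ hdet, Matrix.one_mulVec]
  have hMr : (0 : ℝ) < M := by exact_mod_cast hM
  -- the estimate
  have hest : ∀ e, |chi s t o e ⬝ᵥ φ| ≤ M / 2 * (chi s t o e ⬝ᵥ (A⁻¹ *ᵥ chi s t o e)) := by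
    intro e
    set zz : Idx o → ℤ := fun i => (if s e = i.val then 1 else 0) - (if t e = i.val then 1 else 0)
      with hzz
    have hzR : (fun i => ((zz i : ℤ) : ℝ)) = chi s t o e := by
      funext i
      simp only [hzz, chi]
      push_cast
      rfl
    have h1 := hbmin zz
    have h2 := hbmin (fun i => - zz i)
    have e1 : (fun i => b' i + M * ((zz i : ℤ) : ℝ)) =
        fun i => b' i + (M : ℝ) * chi s t o e i := by
      funext i
      rw [← hzR]
    have e2 : (fun i => b' i + M * (((fun i => - zz i) i : ℤ) : ℝ)) =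
        fun i => b' i + (-(M : ℝ)) * chi s t o e i := by
      funext i
      rw [← hzR]
      push_cast
      ring
    rw [e1, quad_expand _ hAsymm] at h1
    rw [e2, quad_expand _ hAsymm] at h2
    have h3 : 0 ≤ 2 * (M : ℝ) * (chi s t o e ⬝ᵥ φ) +
        (M : ℝ) ^ 2 * (chi s t o e ⬝ᵥ (A⁻¹ *ᵥ chi s t o e)) := by
      rw [hφ]
      linarith
    have h4 : 0 ≤ - (2 * (M : ℝ) * (chi s t o e ⬝ᵥ φ)) +
        (M : ℝ) ^ 2 * (chi s t o e ⬝ᵥ (A⁻¹ *ᵥ chi s t o e)) := by
      rw [neg_sq] at h2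
      rw [hφ]
      linarith
    set X := chi s t o e ⬝ᵥ φ with hX
    set Y := chi s t o e ⬝ᵥ (A⁻¹ *ᵥ chi s t o e) with hY
    have h5 : 0 ≤ (M : ℝ) * (2 * X + M * Y) := by nlinarith
    have h6 : 0 ≤ (M : ℝ) * (-(2 * X) + M * Y) := by nlinarith
    have h7 : 0 ≤ 2 * X + M * Y := nonneg_of_mul_nonneg_right h5 hMr
    have h8 : 0 ≤ -(2 * X) + M * Y := nonneg_of_mul_nonneg_right h6 hMr
    rw [abs_le]
    constructor <;> linarith
  -- the solution
  set z : V → ℤ := fun v => if h : v = o then - z0 - ∑ i, z' i else z' ⟨v, h⟩ with hz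
  have hzo : z o = - z0 - ∑ i, z' i := by simp [hz]
  have hzi : ∀ i : Idx o, z i.val = z' i := by
    intro i
    have : i.val ≠ o := i.2
    simp only [hz, this, dite_false]
    rfl
  set y : E → ℝ := fun e => c e * (chi s t o e ⬝ᵥ φ) with hy
  have hbi : ∀ i : Idx o, r i.val + M * z i.val = b' i := by
    intro i
    rw [hzi, hz']
  have hsumb : ∑ v, (r v + M * z v) = 0 := by
    rw [Finset.sum_add_distrib, hr, ← Finset.mul_sum, ← mul_add]
    have h1 : ∑ v, ((z v : ℤ) : ℝ) = - (z0 : ℝ) := by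
      have h2 : ∑ v, z v = - z0 := by
        rw [sum_idx o, hzo]
        simp only [hzi]
        ring
      exact_mod_cast h2
    rw [h1]
    ring
  have hleft : ∀ i : Idx o, (∑ e, if s e = i.val then y e else 0) -
      (∑ e, if t e = i.val then y e else 0) = r i.val + M * z i.val := by
    intro i
    have h1 := congrFun hAφ i
    rw [hA, lap_mulVec] at h1
    rw [hbi, ← h1, ← Finset.sum_sub_distrib]
    refine Finset.sum_congr rfl fun e _ => ?_
    simp only [hy, chi]
    split_ifs <;> ring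
  refine ⟨z, y, hsumb, ?_, ?_⟩
  · intro e
    rw [hy]
    simp only
    rw [abs_mul, abs_of_pos (hc e)]
    have h1 := hest e
    have h2 := hlev e
    have h3 : c e * |chi s t o e ⬝ᵥ φ| ≤
        c e * (M / 2 * (chi s t o e ⬝ᵥ (A⁻¹ *ᵥ chi s t o e))) :=
      mul_le_mul_of_nonneg_left h1 (hc e).le
    have h4 : (M : ℝ) / 2 * (c e * (chi s t o e ⬝ᵥ (A⁻¹ *ᵥ chi s t o e))) ≤
        M / 2 * (eta * k e) := mul_le_mul_of_nonneg_left h2 (by positivity)
    linarith
  · intro v
    by_cases hv : v = o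
    · subst hv
      have h1 : ∀ u : E → V, ∑ v', (∑ e, if u e = v' then y e else 0) = ∑ e, y e := by
        intro u
        rw [Finset.sum_comm]
        refine Finset.sum_congr rfl fun e _ => ?_
        rw [Finset.sum_ite_eq]
        simp
      have h2 : ∑ v', ((∑ e, if s e = v' then y e else 0) - (∑ e, if t e = v' then y e else 0)) = 0 := by
        rw [Finset.sum_sub_distrib, h1, h1, sub_self]
      rw [sum_idx v] at h2
      simp only [hleft] at h2
      have h3 : ∑ v', (r v' + M * z v') = 0 := hsumb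
      rw [sum_idx v] at h3
      linarith
    · exact hleft ⟨v, hv⟩

end Pool.Agent.MDG.H24
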